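import Pool.Agent.Helper72.OWN.SimsunProof

/-!
# The numbers `b_i(n)` are at most the numbers of simsun permutations (MP_9cb2a9_co)
-/

set_option autoImplicit false

open Pool.Agent.Helper72.OWN

/-- For `2 ≤ i ≤ n` the absolute value of `b_i(n)` is at most the number of simsun permutations of
`1, ..., 2n - 2` with exactly `i - 1` descents. -/
theorem Pool.Agent.Results.MP_9cb2a9_co.EvenRankBelowSimsun.result (n i : ℕ) (hi : 2 ≤ i)
    (hin : i ≤ n) : |b i n| ≤ (simsunNumber (2 * n - 2) (i - 1) : ℤ) :=
  abs_b_le_simsunNumber n i hi hin
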